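import Pool.Agent.H25.CFL.Targets

/-!
# BF: definable functions are bounded below a regular ordinal of HOD (MP_e37c09_lc)
-/

open Ordinal Cardinal Order Set
open scoped ZFSet
open _root_.HD Pool.Agent.H25.CFL

universe u

namespace Pool.Agent.H57.HCL

theorem pf_BF : T_BF.{u} := by
  intro lam hlam z hz g hg hlt
  by_contra hn
  push Not at hn
  refine hlam.2 ⟨z, hz, rs z lam fun a b => b = g a, hod_rs hg z lam, ⟨fun p hp => ?_,
    fun y hy => ?_⟩, fun b hb => ?_⟩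
  · obtain ⟨a, ha, b, hb, -, rfl⟩ := mem_rs.1 hp
    exact ZFSet.pair_mem_prod.2 ⟨toZFSet_mem_toZFSet_iff.2 ha, toZFSet_mem_toZFSet_iff.2 hb⟩
  · obtain ⟨a, ha, rfl⟩ := mem_toZFSet_iff.1 hy
    refine ⟨(g a).toZFSet, pair_mem_rs.2 ⟨ha, hlt a ha, rfl⟩, fun w hw => ?_⟩
    obtain ⟨a', ha', b', hb', hab', he⟩ := mem_rs.1 hw
    obtain ⟨he1, rfl⟩ := ZFSet.pair_injective he
    have := toZFSet_injective he1
    subst this
    rw [hab']
  · obtain ⟨i, hi, hbi⟩ := hn b hb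
    exact ⟨i, hi, g i, hbi, pair_mem_rs.2 ⟨hi, hlt i hi, rfl⟩⟩

end Pool.Agent.H57.HCL
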