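import Pool.Agent.H25.CFL.Targets

/-!
# DL: the limit ordinals are a definable class (MP_e37c09_lc)
-/

open Ordinal Cardinal Order Set
open scoped ZFSet
open _root_.HD Pool.Agent.H25.CFL

universe u

namespace Pool.Agent.H57.HCL

theorem pf_DL : T_DL.{u} := by
  have h1 : DO.{u} fun w => ∃ y < w 0, True :=
    DO.exLt (R := fun _ _ => True) 0 (DO.cst True)
  have h2 : DO.{u} fun w => ∀ y < w 0, ∃ z < w 0, y < z :=
    DO.allLt (R := fun y w => ∃ z < w 0, y < z) 0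
      (DO.exLt (R := fun z w => w 0 < z) 1 (DO.lt 1 0))
  refine (h1.and h2).congr fun w => ?_
  change IsSuccLimit (w 0) ↔ _
  constructor
  · intro h
    exact ⟨⟨0, h.bot_lt, trivial⟩, fun y hy => ⟨Order.succ y, h.succ_lt hy, Order.lt_succ y⟩⟩
  · rintro ⟨⟨y, hy, -⟩, h⟩
    refine ⟨fun hm => not_lt.2 (hm hy.le) hy, fun b hb => ?_⟩
    obtain ⟨z, hz, hbz⟩ := h b hb.lt
    exact hb.2 hbz hz

end Pool.Agent.H57.HCL
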