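import Pool.Agent.H25.CFL.Targets

/-!
# S0: ordinals are unions of countably many small sets (MP_e37c09_lc)
-/

open Ordinal Cardinal Order Set
open scoped ZFSet
open _root_.HD Pool.Agent.H25.CFL

universe u

namespace Pool.Agent.H57.HCL

theorem mem_pk {γ lam b : Ordinal.{u}} (h1 : b < γ) (h2 : b ≤ lam) :
    b.toZFSet ∈ PkHOD γ lam := by
  have hg : DR.{u} fun a b => b = a := DO.eq 1 0
  unfold PkHOD
  rw [ZFSet.mem_sep, ZFSet.mem_powerset]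
  refine ⟨fun x hx => ?_, b, h1, rs b b fun a b => b = a, hod_rs hg b b,
    ⟨fun p hp => ?_, fun y hy => ?_⟩, fun x hx => ?_⟩
  · obtain ⟨a, ha, rfl⟩ := mem_toZFSet_iff.1 hx
    exact toZFSet_mem_toZFSet_iff.2 (lt_of_lt_of_le ha h2)
  · obtain ⟨a, ha, c, hc, -, rfl⟩ := mem_rs.1 hp
    exact ZFSet.pair_mem_prod.2 ⟨toZFSet_mem_toZFSet_iff.2 ha, toZFSet_mem_toZFSet_iff.2 hc⟩
  · obtain ⟨a, ha, rfl⟩ := mem_toZFSet_iff.1 hy
    refine ⟨a.toZFSet, pair_mem_rs.2 ⟨ha, ha, rfl⟩, fun w hw => ?_⟩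
    obtain ⟨a', ha', b', hb', hab', he⟩ := mem_rs.1 hw
    obtain ⟨he1, rfl⟩ := ZFSet.pair_injective he
    have := toZFSet_injective he1
    subst this
    rw [hab']
  · obtain ⟨a, ha, rfl⟩ := mem_toZFSet_iff.1 hx
    exact ⟨a, ha, pair_mem_rs.2 ⟨ha, ha, rfl⟩⟩

theorem pf_S0 : T_S0.{u} := by
  intro γ lam hγ hlam
  have hl : IsSuccLimit γ := Ordinal.aleph0_le_cof.1 hγ.ge
  obtain ⟨ι, f, hf, hι⟩ := Ordinal.exists_lsub_cof γ
  have h1 : #ι = ℵ₀ := hι.trans hγ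
  have h2 : Nonempty (ℕ ≃ ι) := by
    have h3 : Denumerable ι := (Cardinal.denumerable_iff.2 h1).some
    exact ⟨(Denumerable.eqv ι).symm⟩
  obtain ⟨e⟩ := h2
  refine ⟨fun k => (min (f (e k)) lam).toZFSet, fun k => mem_pk ?_ (min_le_right _ _),
    fun b hb => ?_⟩
  · refine lt_of_le_of_lt (min_le_left _ _) ?_
    rw [← hf]
    exact Ordinal.lt_lsub f _
  · have h3 : succ b < Ordinal.lsub f := by
      rw [hf]
      exact hl.succ_lt (lt_of_lt_of_le hb hlam)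
    obtain ⟨i, hi⟩ := Ordinal.lt_lsub_iff.1 h3
    refine ⟨e.symm i, toZFSet_mem_toZFSet_iff.2 (lt_min ?_ hb)⟩
    rw [Equiv.apply_symm_apply]
    exact lt_of_lt_of_le (Order.lt_succ b) hi

end Pool.Agent.H57.HCL
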